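import Pool.Agent.Helper60.PlzA.All
import Pool.Agent.Helper60.Plz.Final
import Pool.Agent.Helper10.Plz.A
import Pool.Agent.Helper10.Plz.B
import Pool.Agent.Helper10.Plz.I
import Pool.Agent.Helper5.Plz.C
import Pool.Agent.Helper89.Plz.D
import Pool.Agent.Helper89.Plz.E
import Pool.Agent.Helper50.Plz.F
import Pool.Agent.Helper28.Plz.G
import Pool.Agent.Helper28.Plz.H

/-!
The asymptotic value of the vertex planarization constants `p_d` of connected graphs of maximum
degree `d` (problem MP_8e7d5e_co): `p_d = 1 - 4 / d + o(1 / d)`.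
-/

set_option autoImplicit false

namespace Pool.Agent.Results.MP_8e7d5e_co.AsymptoticConstant

open Pool.Agent.Helper60.Plz

/-- `d (1 - p_d)` tends to `4`. -/
theorem result :
    Filter.Tendsto (fun d : ℕ => (d : ℝ) * (1 - pd d)) Filter.atTop (nhds 4) :=
  (Pool.Agent.Helper60.PlzA.final Pool.Agent.Helper60.PlzA.hTOP Pool.Agent.Helper60.PlzA.hMONO
    (fun a b ha hb => main (Pool.Agent.Helper5.Plz.packetC Pool.Agent.Helper10.Plz.packetA
      Pool.Agent.Helper10.Plz.packetB)
      Pool.Agent.Helper89.Plz.packetD Pool.Agent.Helper89.Plz.packetE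
      Pool.Agent.Helper50.Plz.packetF Pool.Agent.Helper28.Plz.packetG
      Pool.Agent.Helper28.Plz.packetH Pool.Agent.Helper10.Plz.packetI a b ha hb)).2

end Pool.Agent.Results.MP_8e7d5e_co.AsymptoticConstant
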