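import Pool.Agent.Helper78.DC.Const

/-!
The vertex planarization constant of connected graphs of maximum degree at most four and large
girth is `1/3` (problem MP_8e7d5e_co): such graphs become forests after the deletion of
`(1/3 + 4/g) n` vertices.
-/

set_option autoImplicit false

namespace Pool.Agent.Results.MP_8e7d5e_co.LargeGirthFour

open Pool.Agent.Helper60.Plz

/-- The planarization constant of connected graphs of maximum degree at most `d` and girth at
least `g`: the least `μ` such that for every `ε > 0` every sufficiently large connected graph `G` of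
maximum degree at most `d` and girth at least `g` has `p(G) ≤ (μ + ε) |V(G)|`. -/
noncomputable def pdg (d g : ℕ) : ℝ :=
  sInf {μ : ℝ | ∀ ε > 0, ∃ N : ℕ, ∀ (V : Type) (_ : Fintype V) (G : SimpleGraph V),
    G.Connected → (∀ v, (G.neighborSet v).ncard ≤ d) → (g : ℕ∞) ≤ G.egirth →
      N ≤ Fintype.card V → (planarization G : ℝ) ≤ (μ + ε) * Fintype.card V}

theorem pdg_le {g : ℕ} (h : 18 ≤ g) : pdg 4 g ≤ 1 / 3 + 4 / g :=
  csInf_le ⟨1 / 3, fun _ hμ => Pool.Agent.Helper78.DC.lower (g := g) hμ⟩
    (Pool.Agent.Helper78.DC.upper h)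

theorem le_pdg {g : ℕ} (h : 18 ≤ g) : 1 / 3 ≤ pdg 4 g :=
  le_csInf ⟨_, Pool.Agent.Helper78.DC.upper h⟩
    fun _ hμ => Pool.Agent.Helper78.DC.lower (g := g) hμ

/-- Let `g ≥ 18`. If `G` is a finite graph of maximum degree at most four and `X` meets all cycles of
length less than `g`, then at most `|X| + (1/3 + 4/g) |V|` vertices, among them those of `X`, can be
deleted from `G` so that a forest remains. The planarization constant of connected graphs of maximum
degree at most four and girth at least `g` lies between `1/3` and `1/3 + 4/g`; it tends to `1/3`. -/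
theorem result :
    (∀ g : ℕ, 18 ≤ g → ∀ (V : Type) (_ : Fintype V) (G : SimpleGraph V) (X : Finset V),
      (∀ v, (G.neighborSet v).ncard ≤ 4) →
      (∀ (u : V) (c : G.Walk u u), c.IsCycle → c.length < g → ∃ x ∈ c.support, x ∈ X) →
      ∃ T : Finset V, X ⊆ T ∧ (T.card : ℝ) ≤ X.card + (1 / 3 + 4 / g) * Fintype.card V ∧
        (G.induce {v | v ∉ T}).IsAcyclic) ∧
    (∀ g : ℕ, 18 ≤ g → 1 / 3 ≤ pdg 4 g ∧ pdg 4 g ≤ 1 / 3 + 4 / g) ∧
    Filter.Tendsto (pdg 4) Filter.atTop (nhds (1 / 3)) := by
  refine ⟨?_, fun g h => ⟨le_pdg h, pdg_le h⟩, ?_⟩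
  · intro g h18 V _ G X h4 hX
    obtain ⟨T, h1, h2, h3⟩ := Pool.Agent.Helper78.DC.max_four' h18 h4 X hX
    exact ⟨T, h1, h2, Pool.Agent.Helper78.DC.acyclic_of h3⟩
  · have h0 : Filter.Tendsto (fun g : ℕ => (1 / 3 + 4 / g : ℝ)) Filter.atTop (nhds (1 / 3)) := by
      have := (tendsto_const_div_atTop_nhds_zero_nat (4 : ℝ)).const_add (1 / 3 : ℝ)
      rwa [add_zero] at this
    refine tendsto_of_tendsto_of_tendsto_of_le_of_le' tendsto_const_nhds h0 ?_ ?_
    · exact Filter.eventually_atTop.2 ⟨18, fun g h => le_pdg h⟩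
    · exact Filter.eventually_atTop.2 ⟨18, fun g h => pdg_le h⟩

end Pool.Agent.Results.MP_8e7d5e_co.LargeGirthFour
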