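import Pool.Agent.Helper60.Plz.Final
import Pool.Agent.Helper10.Plz.A
import Pool.Agent.Helper10.Plz.B
import Pool.Agent.Helper10.Plz.I
import Pool.Agent.Helper5.Plz.C
import Pool.Agent.Helper89.Plz.D
import Pool.Agent.Helper89.Plz.E
import Pool.Agent.Helper50.Plz.F
import Pool.Agent.Helper28.Plz.G
import Pool.Agent.Helper28.Plz.H

/-!
Lower bounds for the vertex planarization constants of connected graphs of maximum degree `d`
(problem MP_8e7d5e_co), for every `d`.
-/

set_option autoImplicit false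

namespace Pool.Agent.Results.MP_8e7d5e_co.LineGraphLower

open Pool.Agent.Helper60.Plz

/-- For all `a, b ≥ 2`: `p_{a+b-2} ≥ 1 - 1/a - 1/b`. -/
theorem result (a b : ℕ) (ha : 2 ≤ a) (hb : 2 ≤ b) :
    (1 : ℝ) - 1 / a - 1 / b ≤ pd (a + b - 2) :=
  main (Pool.Agent.Helper5.Plz.packetC Pool.Agent.Helper10.Plz.packetA
      Pool.Agent.Helper10.Plz.packetB)
    Pool.Agent.Helper89.Plz.packetD Pool.Agent.Helper89.Plz.packetE
    Pool.Agent.Helper50.Plz.packetF Pool.Agent.Helper28.Plz.packetG
    Pool.Agent.Helper28.Plz.packetH Pool.Agent.Helper10.Plz.packetI a b ha hb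

end Pool.Agent.Results.MP_8e7d5e_co.LineGraphLower
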