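import Pool.Agent.Helper93.Plz.Main

/-!
An upper bound for the vertex planarization constants of connected graphs of maximum degree `d`
(problem MP_8e7d5e_co).
-/

set_option autoImplicit false

namespace Pool.Agent.Results.MP_8e7d5e_co.UpperBound

open Pool.Agent.Helper60.Plz

/-- For all `d ≥ 7`: `p_d ≤ 1 - 49 / (14 d + 38)`. -/
theorem result (d : ℕ) (hd : 7 ≤ d) : pd d ≤ 1 - 49 / (14 * d + 38) :=
  Pool.Agent.Helper93.Plz.pd_le d hd

end Pool.Agent.Results.MP_8e7d5e_co.UpperBound
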